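import Mathlib

/-!
Spherical completeness of a maximal good subring of a ring with leading terms
(problem MP_6e521b_an, section 3 of the plan of helper43).
-/

open Polynomial

namespace Pool.Agent.H3.FT

/-- A commutative ring with leading terms: `L x c g` says that `x / t g → c` (the number `c` may
be zero). -/
structure LTR (A : Type*) [CommRing A] (Γ : Type*) [AddCommGroup Γ] [LinearOrder Γ]
    [IsOrderedAddMonoid Γ] where
  const : ℂ →+* A
  t : Γ → A
  L : A → ℂ → Γ → Prop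
  L_const : ∀ c, L (const c) c 0
  L_t : ∀ g, L (t g) 1 g
  L_add : ∀ {x y : A} {c d : ℂ} {g : Γ}, L x c g → L y d g → L (x + y) (c + d) g
  L_mul : ∀ {x y : A} {c d : ℂ} {g h : Γ}, L x c g → L y d h → L (x * y) (c * d) (g + h)
  L_lt : ∀ {x : A} {c : ℂ} {g h : Γ}, L x c g → g < h → L x 0 h
  L_uniq : ∀ {x : A} {c d : ℂ} {g : Γ}, L x c g → L x d g → c = d
  L_inv : ∀ {x : A} {c : ℂ} {g : Γ}, c ≠ 0 → L x c g → ∃ y, x * y = 1 ∧ L y c⁻¹ (-g)
  hensel : ∀ (N : ℕ) (e : ℕ → A), (∀ l, L (e l) 0 0) →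
    ∃ w, L w 0 0 ∧ w + e 0 + ∑ i ∈ Finset.range N, e (i + 1) * w ^ (i + 2) = 0
  diag : ∀ (a : ℕ → A) (g : ℕ → Γ), StrictAnti g → (∀ i, L (a (i + 1) - a i) 0 (g i)) →
    ∃ x, ∀ i, L (x - a i) 0 (g i)

variable {A : Type*} [CommRing A] {Γ : Type*} [AddCommGroup Γ] [LinearOrder Γ]
  [IsOrderedAddMonoid Γ] (D : LTR A Γ)

namespace LTR

/-- `x = O(t g)`. -/
def O (x : A) (g : Γ) : Prop := ∃ c, D.L x c g

/-- A good subring: it contains the constants and every nonzero element has a leading term. -/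
def Good (F : Subring A) : Prop :=
  (∀ c, D.const c ∈ F) ∧ ∀ x ∈ F, x = 0 ∨ ∃ c g, c ≠ 0 ∧ D.L x c g

/-- A maximal good subring. -/
def Maxi (F : Subring A) : Prop := D.Good F ∧ ∀ F' : Subring A, D.Good F' → F ≤ F' → F' ≤ F

variable {D}

lemma L_zero (g : Γ) : D.L 0 0 g := by
  have h := D.L_mul (D.L_const 0) (D.L_t g)
  simpa using h

lemma L_one : D.L 1 1 0 := by
  have h := D.L_const 1
  simpa using h

lemma L_cmul {x : A} {c : ℂ} {g : Γ} (h : D.L x c g) (k : ℂ) :
    D.L (D.const k * x) (k * c) g := by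
  have h1 := D.L_mul (D.L_const k) h
  simpa using h1

lemma L_neg {x : A} {c : ℂ} {g : Γ} (h : D.L x c g) : D.L (-x) (-c) g := by
  have h1 := L_cmul h (-1)
  simpa using h1

lemma L_sub {x y : A} {c d : ℂ} {g : Γ} (h : D.L x c g) (h' : D.L y d g) :
    D.L (x - y) (c - d) g := by
  have h1 := D.L_add h (L_neg h')
  simpa [sub_eq_add_neg] using h1

lemma L_pow {x : A} {c : ℂ} {g : Γ} (h : D.L x c g) (n : ℕ) : D.L (x ^ n) (c ^ n) (n • g) := by
  induction n with
  | zero => simpa using L_one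
  | succ n ih =>
    have h1 := D.L_mul ih h
    rw [pow_succ, pow_succ, succ_nsmul]
    exact h1

lemma L_sum {ι : Type*} (s : Finset ι) {f : ι → A} {c : ι → ℂ} {g : Γ}
    (h : ∀ i ∈ s, D.L (f i) (c i) g) : D.L (∑ i ∈ s, f i) (∑ i ∈ s, c i) g := by
  classical
  induction s using Finset.induction_on with
  | empty => simpa using L_zero g
  | insert a s has ih =>
    rw [Finset.sum_insert has, Finset.sum_insert has]
    exact D.L_add (h a (Finset.mem_insert_self a s))
      (ih fun i hi => h i (Finset.mem_insert_of_mem hi))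

lemma o_sum {ι : Type*} (s : Finset ι) {f : ι → A} {g : Γ}
    (h : ∀ i ∈ s, D.L (f i) 0 g) : D.L (∑ i ∈ s, f i) 0 g := by
  have h1 := L_sum s (c := fun _ => 0) h
  simpa using h1

lemma O_sum {ι : Type*} (s : Finset ι) {f : ι → A} {g : Γ}
    (h : ∀ i ∈ s, D.O (f i) g) : D.O (∑ i ∈ s, f i) g := by
  classical
  induction s using Finset.induction_on with
  | empty => exact ⟨0, by simpa using L_zero g⟩
  | insert a s has ih =>
    rw [Finset.sum_insert has]
    obtain ⟨c, hc⟩ := h a (Finset.mem_insert_self a s)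
    obtain ⟨d, hd⟩ := ih fun i hi => h i (Finset.mem_insert_of_mem hi)
    exact ⟨c + d, D.L_add hc hd⟩

lemma O_mul {x y : A} {g h : Γ} (hx : D.O x g) (hy : D.O y h) : D.O (x * y) (g + h) := by
  obtain ⟨c, hc⟩ := hx
  obtain ⟨d, hd⟩ := hy
  exact ⟨_, D.L_mul hc hd⟩

lemma O_le {x : A} {g h : Γ} (hx : D.O x g) (hgh : g ≤ h) : D.O x h := by
  rcases hgh.eq_or_lt with rfl | hlt
  · exact hx
  · obtain ⟨c, hc⟩ := hx
    exact ⟨0, D.L_lt hc hlt⟩

lemma o_le {x : A} {g h : Γ} (hx : D.L x 0 g) (hgh : g ≤ h) : D.L x 0 h := by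
  rcases hgh.eq_or_lt with rfl | hlt
  · exact hx
  · exact D.L_lt hx hlt

lemma O_mul_o {x y : A} {g h : Γ} (hx : D.O x g) (hy : D.L y 0 h) : D.L (x * y) 0 (g + h) := by
  obtain ⟨c, hc⟩ := hx
  have h1 := D.L_mul hc hy
  simpa using h1

lemma O_lt {x : A} {g h : Γ} (hx : D.O x g) (hgh : g < h) : D.L x 0 h := by
  obtain ⟨c, hc⟩ := hx
  exact D.L_lt hc hgh

lemma L_add_o {x y : A} {c : ℂ} {g : Γ} (hx : D.L x c g) (hy : D.L y 0 g) :
    D.L (x + y) c g := by
  have h1 := D.L_add hx hy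
  simpa using h1

lemma o_add {x y : A} {g : Γ} (hx : D.L x 0 g) (hy : D.L y 0 g) :
    D.L (x + y) 0 g := by
  have h1 := D.L_add hx hy
  simpa using h1

lemma L_nat (n : ℕ) : D.L (n : A) (n : ℂ) 0 := by
  have h := D.L_const (n : ℂ)
  simpa using h

lemma L_cancel_nat {x : A} {c : ℂ} {g : Γ} {n : ℕ} (hn : n ≠ 0) (h : D.L (x * (n : A)) c g) :
    D.L x (c / n) g := by
  have h1 := L_cmul h ((n : ℂ)⁻¹)
  have hn' : (n : ℂ) ≠ 0 := by exact_mod_cast hn
  have h2 : D.const ((n : ℂ)⁻¹) * (x * (n : A)) = x := by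
    have h3 : D.const ((n : ℂ)⁻¹) * (n : A) = 1 := by
      have h4 : (n : A) = D.const (n : ℂ) := by simp
      rw [h4, ← map_mul, inv_mul_cancel₀ hn', map_one]
    calc D.const ((n : ℂ)⁻¹) * (x * (n : A)) = x * (D.const ((n : ℂ)⁻¹) * (n : A)) := by ring
      _ = x := by rw [h3, mul_one]
  rw [h2] at h1
  rwa [div_eq_inv_mul]

/-- A nonzero leading term is determined. -/
lemma lt_of_o {x : A} {c : ℂ} {g h : Γ} (hc : c ≠ 0) (h1 : D.L x c h) (h2 : D.L x 0 g) :
    h < g := by
  by_contra hcon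
  push Not at hcon
  rcases hcon.eq_or_lt with rfl | hlt
  · exact hc (D.L_uniq h1 h2)
  · exact hc (D.L_uniq h1 (D.L_lt h2 hlt))

/-- Zero has no leading term. -/
lemma ne_zero_of_L {x : A} {c : ℂ} {g : Γ} (hc : c ≠ 0) (h : D.L x c g) : x ≠ 0 := by
  rintro rfl
  exact hc (D.L_uniq h (L_zero g))

/-- Maximal good subrings exist. -/
theorem exists_maxi {F₀ : Subring A} (h₀ : D.Good F₀) : ∃ F, F₀ ≤ F ∧ D.Maxi F := by
  obtain ⟨F, hF1, hF2⟩ := zorn_le_nonempty₀ {F : Subring A | D.Good F} (by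
    intro c hc hchain F₁ hF₁
    have hdir : DirectedOn (· ≤ ·) c := hchain.directedOn
    refine ⟨sSup c, ⟨fun k => ?_, fun x hx => ?_⟩, fun F hF => le_sSup hF⟩
    · exact (le_sSup hF₁ : F₁ ≤ sSup c) ((hc hF₁).1 k)
    · rw [Subring.mem_sSup_of_directedOn ⟨F₁, hF₁⟩ hdir] at hx
      obtain ⟨F, hF, hxF⟩ := hx
      exact (hc hF).2 x hxF) F₀ h₀
  refine ⟨F, hF1, hF2.prop, fun F' hF' hle => ?_⟩
  exact hF2.le_of_ge hF' hle

/-- A maximal good subring is a field. -/
theorem Maxi.inv {F : Subring A} (hF : D.Maxi F) {x : A} (hx : x ∈ F) (hx0 : x ≠ 0) :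
    ∃ y ∈ F, x * y = 1 := by
  obtain ⟨c, g, hc, hL⟩ := (hF.1.2 x hx).resolve_left hx0
  obtain ⟨y, hxy, hy⟩ := D.L_inv hc hL
  refine ⟨y, ?_, hxy⟩
  have hpow : ∀ n : ℕ, x ^ n * y ^ n = 1 := fun n => by rw [← mul_pow, hxy, one_pow]
  let F' : Subring A :=
    { carrier := {z | ∃ n : ℕ, z * x ^ n ∈ F}
      mul_mem' := by
        rintro a b ⟨n, hn⟩ ⟨m, hm⟩
        refine ⟨n + m, ?_⟩
        have h1 := F.mul_mem hn hm
        have h2 : a * b * x ^ (n + m) = a * x ^ n * (b * x ^ m) := by ring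
        rw [h2]
        exact h1
      one_mem' := ⟨0, by simpa using F.one_mem⟩
      add_mem' := by
        rintro a b ⟨n, hn⟩ ⟨m, hm⟩
        refine ⟨n + m, ?_⟩
        have h2 : (a + b) * x ^ (n + m) = a * x ^ n * x ^ m + b * x ^ m * x ^ n := by ring
        rw [h2]
        exact F.add_mem (F.mul_mem hn (F.pow_mem hx _)) (F.mul_mem hm (F.pow_mem hx _))
      zero_mem' := ⟨0, by simpa using F.zero_mem⟩
      neg_mem' := by
        rintro a ⟨n, hn⟩
        refine ⟨n, ?_⟩
        have h2 : -a * x ^ n = -(a * x ^ n) := by ring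
        rw [h2]
        exact F.neg_mem hn }
  have hle : F ≤ F' := fun z hz => ⟨0, by simpa using hz⟩
  have hgood : D.Good F' := by
    refine ⟨fun k => hle (hF.1.1 k), ?_⟩
    rintro z ⟨n, hn⟩
    have hz : z = z * x ^ n * y ^ n := by rw [mul_assoc, hpow, mul_one]
    rcases hF.1.2 _ hn with h0 | ⟨c', g', hc', hL'⟩
    · left
      rw [hz, h0, zero_mul]
    · right
      refine ⟨c' * c⁻¹ ^ n, g' + n • (-g), mul_ne_zero hc' (pow_ne_zero _ (inv_ne_zero hc)), ?_⟩
      have h1 := D.L_mul hL' (L_pow hy n)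
      rw [← hz] at h1
      exact h1
  exact hF.2 F' hgood hle ⟨1, by rw [pow_one, mul_comm, hxy]; exact F.one_mem⟩

/-! ### Settled polynomials -/

/-- The polynomial `f` is settled on the ball of radius `g` about the origin. -/
def St (D : LTR A Γ) (f : A[X]) (γ : Γ) (c : ℂ) (g : Γ) : Prop :=
  c ≠ 0 ∧ D.L (f.coeff 0) c γ ∧ ∀ l : ℕ, D.O (f.coeff l) (γ - l • g)

lemma taylor_coeff_sum (b : A) (f : A[X]) (l : ℕ) :
    (taylor b f).coeff l = ∑ m ∈ Finset.range (f.natDegree + 1),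
      ((m + l).choose l : A) * f.coeff (m + l) * b ^ m := by
  rw [taylor_coeff, eval_eq_sum_range' (n := f.natDegree + 1)]
  · refine Finset.sum_congr rfl fun m _ => ?_
    rw [hasseDeriv_coeff]
  · have h1 := natDegree_hasseDeriv_le f l
    omega

lemma St.taylor {f : A[X]} {γ : Γ} {c : ℂ} {g : Γ} (h : D.St f γ c g) {b : A}
    (hb : D.L b 0 g) : D.St (Polynomial.taylor b f) γ c g := by
  obtain ⟨hc, h0, hl⟩ := h
  have hbp : ∀ m : ℕ, D.O (b ^ m) (m • g) := fun m => ⟨_, L_pow hb m⟩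
  have hbo : ∀ m : ℕ, 1 ≤ m → D.L (b ^ m) 0 (m • g) := fun m hm => by
    have h1 := L_pow hb m
    rwa [zero_pow (by omega)] at h1
  refine ⟨hc, ?_, fun l => ?_⟩
  · rw [taylor_coeff_sum, Finset.sum_range_succ']
    rw [add_comm]
    refine L_add_o ?_ ?_
    · simpa using h0
    · refine o_sum _ fun m _ => ?_
      have h1 : D.O (((m + 1 + 0).choose 0 : A) * f.coeff (m + 1 + 0)) (γ - (m + 1) • g) := by
        simpa using hl (m + 1)
      have h2 := O_mul_o h1 (hbo (m + 1) (by omega))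
      rwa [sub_add_cancel] at h2
  · rw [taylor_coeff_sum]
    refine O_sum _ fun m _ => ?_
    have h1 : D.O (((m + l).choose l : A) * f.coeff (m + l)) (γ - (m + l) • g) := by
      have h2 := O_mul (⟨_, L_nat ((m + l).choose l)⟩ : D.O _ _) (hl (m + l))
      rwa [zero_add] at h2
    have h2 := O_mul h1 (hbp m)
    have h3 : γ - (m + l) • g + m • g = γ - l • g := by
      rw [add_nsmul]
      abel
    rwa [h3] at h2

lemma St.eval {f : A[X]} {γ : Γ} {c : ℂ} {g : Γ} (h : D.St f γ c g) {b : A}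
    (hb : D.L b 0 g) : D.L (f.eval b) c γ := by
  have h1 := (h.taylor hb).2.1
  rwa [taylor_coeff_zero] at h1

lemma St.mono {f : A[X]} {γ : Γ} {c : ℂ} {g g' : Γ} (h : D.St f γ c g) (hg : g' ≤ g) :
    D.St f γ c g' := by
  obtain ⟨hc, h0, hl⟩ := h
  refine ⟨hc, h0, fun l => O_le (hl l) ?_⟩
  have h1 : l • g' ≤ l • g := nsmul_le_nsmul_right hg l
  exact sub_le_sub_left h1 γ

lemma St.C_mul {f : A[X]} {γ : Γ} {c : ℂ} {g : Γ} (h : D.St f γ c g) {k : A} {d : ℂ} {δ : Γ}
    (hd : d ≠ 0) (hk : D.L k d δ) : D.St (C k * f) (δ + γ) (d * c) g := by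
  obtain ⟨hc, h0, hl⟩ := h
  refine ⟨mul_ne_zero hd hc, ?_, fun l => ?_⟩
  · rw [coeff_C_mul]
    exact D.L_mul hk h0
  · rw [coeff_C_mul]
    have h1 := O_mul (⟨_, hk⟩ : D.O k δ) (hl l)
    rwa [← add_sub_assoc] at h1

/-! ### Sequences of balls -/

section Seq

variable {F : Subring A} {a : ℕ → A} {g : ℕ → Γ}

lemma chain (hg : StrictAnti g) (h : ∀ i, D.L (a (i + 1) - a i) 0 (g i)) {i j : ℕ}
    (hij : i ≤ j) : D.L (a j - a i) 0 (g i) := by
  induction j, hij using Nat.le_induction with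
  | base => simpa using L_zero (g i)
  | succ j hij ih =>
    have h1 : D.L (a (j + 1) - a j) 0 (g i) := o_le (h j) (hg.antitone hij)
    have h2 := o_add h1 ih
    have h3 : a (j + 1) - a j + (a j - a i) = a (j + 1) - a i := by ring
    rwa [h3] at h2

/-- `R` is settled at `i`. -/
def Settled (D : LTR A Γ) (F : Subring A) (a : ℕ → A) (g : ℕ → Γ) (R : F[X]) (i : ℕ) : Prop :=
  ∃ γ c, D.St (Polynomial.taylor (a i) (R.map F.subtype)) γ c (g i)

lemma Settled.eval {R : F[X]} {i : ℕ} (h : D.Settled F a g R i) {x : A}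
    (hx : D.L (x - a i) 0 (g i)) : ∃ γ c, c ≠ 0 ∧ D.L (R.eval₂ F.subtype x) c γ := by
  obtain ⟨γ, c, hs⟩ := h
  refine ⟨γ, c, hs.1, ?_⟩
  have h1 := hs.eval hx
  rwa [taylor_eval, sub_add_cancel, eval_map] at h1

/-- Taylor expansion at another point of the ball. -/
lemma St.shift {f : A[X]} {γ : Γ} {c : ℂ} {ρ : Γ} {x y : A}
    (h : D.St (Polynomial.taylor x f) γ c ρ) (hy : D.L (y - x) 0 ρ) :
    D.St (Polynomial.taylor y f) γ c ρ := by
  have h1 := h.taylor hy
  rwa [taylor_taylor, sub_add_cancel] at h1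

lemma taylor_mem {a : A} (ha : a ∈ F) (R : F[X]) (l : ℕ) :
    (Polynomial.taylor a (R.map F.subtype)).coeff l ∈ F := by
  rw [taylor_coeff_sum]
  refine F.sum_mem fun m _ => ?_
  refine F.mul_mem (F.mul_mem (natCast_mem F _) ?_) (F.pow_mem ha _)
  rw [coeff_map]
  exact (R.coeff (m + l)).2

lemma const_good (hF : D.Good F) : ∀ c, D.const c ∈ F := hF.1

/-- The extension of `F` by one element. -/
lemma mem_of_maxi (hF : D.Maxi F) {x : A}
    (h : ∀ S : F[X], S.eval₂ F.subtype x = 0 ∨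
      ∃ c γ, c ≠ 0 ∧ D.L (S.eval₂ F.subtype x) c γ) : x ∈ F := by
  have hle : F ≤ (eval₂RingHom F.subtype x).range := fun y hy => by
    refine ⟨C ⟨y, hy⟩, ?_⟩
    simp
  refine hF.2 _ ⟨fun k => hle (hF.1.1 k), ?_⟩ hle ⟨X, by simp⟩
  rintro z ⟨S, rfl⟩
  exact h S

/-- The coefficients of the Taylor expansion of `R` when `R'` is settled. -/
lemma deriv_coeffs {f : A[X]} {x : A} {γ : Γ} {c : ℂ} {ρ : Γ}
    (h : D.St (Polynomial.taylor x (derivative f)) γ c ρ) :
    D.L ((Polynomial.taylor x f).coeff 1) c γ ∧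
      ∀ l : ℕ, D.O ((Polynomial.taylor x f).coeff (l + 1)) (γ - l • ρ) := by
  have hder : Polynomial.taylor x (derivative f) = derivative (Polynomial.taylor x f) := by
    rw [taylor_apply, taylor_apply, derivative_comp]
    simp
  rw [hder] at h
  obtain ⟨hc, h0, hl⟩ := h
  constructor
  · rw [coeff_derivative] at h0
    simpa using h0
  · intro l
    obtain ⟨c', hc'⟩ := hl l
    rw [coeff_derivative] at hc'
    have h1 : ((l : A) + 1) = ((l + 1 : ℕ) : A) := by push_cast; ring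
    rw [h1] at hc'
    exact ⟨_, L_cancel_nat (by omega) hc'⟩

/-- Uniqueness of the root. -/
lemma root_unique {f : A[X]} {γ : Γ} {c : ℂ} {ρ : Γ} {z x y : A}
    (h : D.St (Polynomial.taylor z (derivative f)) γ c ρ) (hx : D.L (x - z) 0 ρ)
    (hy : D.L (y - z) 0 ρ) (hfx : f.eval x = 0) (hfy : f.eval y = 0) : x = y := by
  obtain ⟨h1, hl⟩ := deriv_coeffs (h.shift hx)
  have hyx : D.L (y - x) 0 ρ := by
    have h2 := L_sub hy hx
    have h3 : y - z - (x - z) = y - x := by ring
    rw [h3] at h2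
    simpa using h2
  set T := Polynomial.taylor x f with hT
  have h0 : T.coeff 0 = 0 := by rw [hT, taylor_coeff_zero, hfx]
  have hev : T.eval (y - x) = 0 := by rw [hT, taylor_eval, sub_add_cancel, hfy]
  have hN : T.natDegree < T.natDegree + 2 := by omega
  rw [eval_eq_sum_range' hN, Finset.sum_range_succ', h0] at hev
  have hQ : D.L (∑ l ∈ Finset.range (T.natDegree + 1), T.coeff (l + 1) * (y - x) ^ l) c γ := by
    rw [Finset.sum_range_succ', add_comm]
    refine L_add_o (by simpa using h1) (o_sum _ fun m _ => ?_)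
    have h2 : D.L ((y - x) ^ (m + 1)) 0 ((m + 1) • ρ) := by
      have h3 := L_pow hyx (m + 1)
      rwa [zero_pow (by omega)] at h3
    have h3 := O_mul_o (hl (m + 1)) h2
    rwa [sub_add_cancel] at h3
  obtain ⟨u, hu, -⟩ := D.L_inv h.1 hQ
  have h2 : (y - x) * (∑ l ∈ Finset.range (T.natDegree + 1), T.coeff (l + 1) * (y - x) ^ l)
      = 0 := by
    rw [Finset.mul_sum]
    rw [zero_mul, add_zero] at hev
    rw [← hev]
    refine Finset.sum_congr rfl fun l _ => ?_
    ring
  have h3 : y - x = 0 := by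
    calc y - x = (y - x) * ((∑ l ∈ Finset.range (T.natDegree + 1),
          T.coeff (l + 1) * (y - x) ^ l) * u) := by rw [hu, mul_one]
      _ = ((y - x) * (∑ l ∈ Finset.range (T.natDegree + 1),
          T.coeff (l + 1) * (y - x) ^ l)) * u := by ring
      _ = 0 := by rw [h2, zero_mul]
  exact (sub_eq_zero.1 h3).symm

/-- Newton's method. -/
lemma root_exists {f : A[X]} {γ : Γ} {c : ℂ} {ρ σ : Γ} {z : A}
    (h : D.St (Polynomial.taylor z (derivative f)) γ c ρ) (hσ : σ < ρ)
    (h0 : D.L (f.eval z) 0 (γ + σ)) : ∃ x, D.L (x - z) 0 σ ∧ f.eval x = 0 := by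
  obtain ⟨h1, hl⟩ := deriv_coeffs h
  set T := Polynomial.taylor z f with hT
  have hs : D.L (T.coeff 1 * D.t σ) c (γ + σ) := by
    have h2 := D.L_mul h1 (D.L_t σ)
    simpa using h2
  obtain ⟨u, hu, huL⟩ := D.L_inv h.1 hs
  set e : ℕ → A := fun l => if l = 0 then T.coeff 0 * u else
    T.coeff (l + 1) * D.t σ ^ (l + 1) * u with he
  have heo : ∀ l, D.L (e l) 0 0 := by
    intro l
    rw [he]
    rcases Nat.eq_zero_or_pos l with hl2 | hl2
    · subst hl2
      simp only [if_true]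
      rw [hT, taylor_coeff_zero]
      have h2 := D.L_mul h0 huL
      simpa using h2
    · have hl1 : l ≠ 0 := by omega
      simp only [hl1, if_false]
      obtain ⟨m, rfl⟩ : ∃ m, l = m + 1 := ⟨l - 1, by omega⟩
      have h2 : D.O (T.coeff (m + 2)) (γ - (m + 1) • ρ) := hl (m + 1)
      have h3 : D.O (T.coeff (m + 2) * D.t σ ^ (m + 2)) (γ - (m + 1) • ρ + (m + 2) • σ) :=
        O_mul h2 ⟨_, L_pow (D.L_t σ) (m + 2)⟩
      have h4 := O_mul h3 (⟨_, huL⟩ : D.O u _)
      refine O_lt h4 ?_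
      have h5 : (m + 1) • σ < (m + 1) • ρ := nsmul_lt_nsmul_right (by omega) hσ
      have h6 : γ - (m + 1) • ρ + (m + 2) • σ + -(γ + σ) = (m + 1) • σ - (m + 1) • ρ := by
        rw [show m + 2 = (m + 1) + 1 from rfl, succ_nsmul σ (m + 1)]
        abel
      rw [h6]
      exact sub_neg.2 h5
  obtain ⟨w, hw, hroot⟩ := D.hensel T.natDegree e heo
  refine ⟨z + D.t σ * w, ?_, ?_⟩
  · have h2 := D.L_mul (D.L_t σ) hw
    simpa using h2
  · have h2 : f.eval (z + D.t σ * w) = T.eval (D.t σ * w) := by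
      rw [hT, taylor_eval, add_comm]
    rw [h2, eval_eq_sum_range' (show T.natDegree < T.natDegree + 2 by omega),
      Finset.sum_range_succ', Finset.sum_range_succ']
    have h3 : ∀ l, T.coeff (l + 1 + 1) * (D.t σ * w) ^ (l + 1 + 1)
        = (T.coeff 1 * D.t σ) * (e (l + 1) * w ^ (l + 2)) := by
      intro l
      simp only [he, Nat.succ_ne_zero, if_false]
      have h4 : (T.coeff 1 * D.t σ) * (T.coeff (l + 1 + 1) * D.t σ ^ (l + 1 + 1) * u * w ^ (l + 2))
          = T.coeff (l + 1 + 1) * (D.t σ * w) ^ (l + 1 + 1) * ((T.coeff 1 * D.t σ) * u) := by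
        ring
      rw [h4, hu, mul_one]
    have h5 : T.coeff 0 = (T.coeff 1 * D.t σ) * e 0 := by
      simp only [he, if_true]
      have h6 : (T.coeff 1 * D.t σ) * (T.coeff 0 * u)
          = T.coeff 0 * ((T.coeff 1 * D.t σ) * u) := by ring
      rw [h6, hu, mul_one]
    rw [Finset.sum_congr rfl fun l _ => h3 l, ← Finset.mul_sum]
    calc (T.coeff 1 * D.t σ) * ∑ i ∈ Finset.range T.natDegree, e (i + 1) * w ^ (i + 2)
          + T.coeff (0 + 1) * (D.t σ * w) ^ (0 + 1) + T.coeff 0 * (D.t σ * w) ^ 0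
        = (T.coeff 1 * D.t σ) * ∑ i ∈ Finset.range T.natDegree, e (i + 1) * w ^ (i + 2)
          + (T.coeff 1 * D.t σ) * w + T.coeff 0 := by ring
      _ = (T.coeff 1 * D.t σ) * (w + e 0
          + ∑ i ∈ Finset.range T.natDegree, e (i + 1) * w ^ (i + 2)) := by
          conv_lhs => rw [h5]
          ring
      _ = 0 := by rw [hroot, mul_zero]

/-- Spherical completeness of the maximal good subrings. -/
theorem SC (hF : D.Maxi F) (ha : ∀ i, a i ∈ F) (hg : StrictAnti g)
    (h : ∀ i, D.L (a (i + 1) - a i) 0 (g i)) : ∃ x ∈ F, ∀ i, D.L (x - a i) 0 (g i) := by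
  by_cases hall : ∀ R : F[X], R ≠ 0 → ∃ i, D.Settled F a g R i
  · obtain ⟨x, hx⟩ := D.diag a g hg h
    refine ⟨x, mem_of_maxi hF fun S => ?_, hx⟩
    by_cases hS : S = 0
    · left
      simp [hS]
    · obtain ⟨i, hi⟩ := hall S hS
      obtain ⟨γ, c, hc, hL⟩ := hi.eval (hx i)
      exact Or.inr ⟨c, γ, hc, hL⟩
  · push Not at hall
    obtain ⟨R₀, hR₀, hR₀s⟩ := hall
    classical
    have hex : ∃ d, ∃ R : F[X], R ≠ 0 ∧ R.natDegree = d ∧ ∀ i, ¬ D.Settled F a g R i :=
      ⟨_, R₀, hR₀, rfl, hR₀s⟩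
    obtain ⟨R₁, hR₁, hR₁d, hR₁s⟩ := Nat.find_spec hex
    set d := Nat.find hex with hd
    have hmin : ∀ S : F[X], S ≠ 0 → S.natDegree < d → ∃ i, D.Settled F a g S i := by
      intro S hS hSd
      by_contra hcon
      push Not at hcon
      exact Nat.find_min hex hSd ⟨S, hS, rfl, hcon⟩
    -- a monic polynomial
    have hlc : ((R₁.leadingCoeff : F) : A) ≠ 0 := by
      intro h0
      exact hR₁ (leadingCoeff_eq_zero.1 (Subtype.ext h0))
    obtain ⟨k, hkF, hk⟩ := hF.inv R₁.leadingCoeff.2 hlc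
    set k' : F := ⟨k, hkF⟩ with hk'
    have hkk : k' * R₁.leadingCoeff = 1 := by
      apply Subtype.ext
      change k * (R₁.leadingCoeff : A) = 1
      rw [mul_comm]
      exact hk
    set R : F[X] := C k' * R₁ with hR
    have hRm : R.Monic := monic_C_mul_of_mul_leadingCoeff_eq_one hkk
    have hRd : R.natDegree = d := by
      rw [hR, natDegree_C_mul_of_mul_ne_zero, hR₁d]
      rw [hkk]
      exact fun h1 => hlc (by
        have h2 : R₁.leadingCoeff = 0 := by
          rw [← one_mul R₁.leadingCoeff, h1, zero_mul]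
        rw [h2]
        rfl)
    obtain ⟨cl, δ, hcl, hclL⟩ := (hF.1.2 _ R₁.leadingCoeff.2).resolve_left hlc
    have hRs : ∀ i, ¬ D.Settled F a g R i := by
      rintro i ⟨γ, c, hs⟩
      refine hR₁s i ⟨δ + γ, cl * c, ?_⟩
      have h1 := hs.C_mul hcl hclL
      have h2 : C ((R₁.leadingCoeff : F) : A) * Polynomial.taylor (a i) (R.map F.subtype)
          = Polynomial.taylor (a i) (R₁.map F.subtype) := by
        rw [hR, Polynomial.map_mul, map_C, taylor_mul, taylor_C, ← mul_assoc, ← C_mul]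
        change C ((R₁.leadingCoeff : A) * k) * _ = _
        rw [hk, C_1, one_mul]
      rwa [h2] at h1
    have hd1 : 1 ≤ d := by
      by_contra hcon
      have h0 : R.natDegree = 0 := by omega
      have h1 : R = 1 := hRm.natDegree_eq_zero.1 h0
      refine hRs 0 ⟨0, 1, one_ne_zero, ?_, fun l => ?_⟩
      · rw [h1]
        simpa using L_one
      · rw [h1]
        rcases Nat.eq_zero_or_pos l with rfl | hl
        · refine ⟨1, ?_⟩
          simpa using L_one
        · refine ⟨0, ?_⟩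
          have h2 : (Polynomial.taylor (a 0) ((1 : F[X]).map F.subtype)).coeff l = 0 := by
            rw [Polynomial.map_one, taylor_one, coeff_C, if_neg (by omega)]
          rw [h2]
          exact L_zero _
    -- the derivative is settled
    have hnat : ∀ n : ℕ, n ≠ 0 → (n : A) ≠ 0 := fun n hn =>
      ne_zero_of_L (by exact_mod_cast hn) (L_nat (D := D) n)
    have hR' : derivative R ≠ 0 := by
      intro h0
      have h1 : (derivative R).coeff (d - 1) = 0 := by rw [h0, coeff_zero]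
      rw [coeff_derivative, Nat.sub_add_cancel hd1, ← hRd, coeff_natDegree, hRm.leadingCoeff,
        one_mul, hRd] at h1
      have h2 : (((d - 1 : ℕ) : F) + 1 : F) = ((d : ℕ) : F) := by
        rw [← Nat.cast_succ]
        congr 1
        omega
      rw [h2] at h1
      have h3 := congrArg (Subtype.val) h1
      exact hnat d (by omega) (by simpa using h3)
    have hR'd : (derivative R).natDegree < d := by
      have h1 := natDegree_derivative_lt (p := R) (by omega)
      omega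
    obtain ⟨i₁, γ, c, hs⟩ := hmin _ hR' hR'd
    set f : A[X] := R.map F.subtype with hf
    have hs' : D.St (Polynomial.taylor (a i₁) (derivative f)) γ c (g i₁) := by
      rw [hf, derivative_map]
      exact hs
    have hclose : ∀ i, i₁ ≤ i → D.L (a i - a i₁) 0 (g i₁) := fun i hi => chain hg h hi
    -- the value of `R` at the centres
    have hval : ∀ i, i₁ < i → D.L (f.eval (a i)) 0 (γ + g i) := by
      intro i hi
      obtain ⟨h1, hl⟩ := deriv_coeffs (hs'.shift (hclose i hi.le))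
      have hmem : f.eval (a i) ∈ F := by
        rw [← taylor_coeff_zero]
        exact taylor_mem (ha i) R 0
      rcases hF.1.2 _ hmem with h0 | ⟨c', γ', hc', hL'⟩
      · rw [h0]
        exact L_zero _
      · by_cases hγ : γ' < γ + g i
        · exact D.L_lt hL' hγ
        · exfalso
          push Not at hγ
          refine hRs i ⟨γ', c', hc', ?_, fun l => ?_⟩
          · rw [taylor_coeff_zero]
            exact hL'
          · rcases l with _ | l
            · rw [taylor_coeff_zero, zero_nsmul, sub_zero]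
              exact ⟨_, hL'⟩
            · refine O_le (hl l) ?_
              have h2 : l • g i ≤ l • g i₁ := nsmul_le_nsmul_right (hg hi).le l
              calc γ - l • g i₁ ≤ γ - l • g i := sub_le_sub_left h2 γ
                _ = γ + g i - (l + 1) • g i := by
                    rw [succ_nsmul]
                    abel
                _ ≤ γ' - (l + 1) • g i := sub_le_sub_right hγ _
    have hroots : ∀ i, i₁ < i → ∃ x, D.L (x - a i) 0 (g i) ∧ f.eval x = 0 := fun i hi =>
      root_exists (hs'.shift (hclose i hi.le)) (hg hi) (hval i hi)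
    obtain ⟨x, hx, hfx⟩ := hroots (i₁ + 1) (by omega)
    have hfar : ∀ i, i₁ ≤ i → ∀ y, D.L (y - a i) 0 (g i) → D.L (y - a i₁) 0 (g i₁) := by
      intro i hi y hy
      have h1 := o_add (o_le hy (hg.antitone hi)) (hclose i hi)
      have h2 : y - a i + (a i - a i₁) = y - a i₁ := by ring
      rwa [h2] at h1
    have hxall : ∀ i, D.L (x - a i) 0 (g i) := by
      intro i
      rcases Nat.lt_or_ge i₁ i with hi | hi
      · obtain ⟨y, hy, hfy⟩ := hroots i hi
        have h1 : x = y := root_unique hs' (hfar _ (by omega) x hx) (hfar i hi.le y hy) hfx hfy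
        rwa [h1]
      · have h1 : D.L (a (i₁ + 1) - a i) 0 (g i) := chain hg h (by omega)
        have h2 := o_add (o_le hx (hg.antitone (show i ≤ i₁ + 1 by omega))) h1
        have h3 : x - a (i₁ + 1) + (a (i₁ + 1) - a i) = x - a i := by ring
        rwa [h3] at h2
    refine ⟨x, mem_of_maxi hF fun S => ?_, hxall⟩
    have hmod : S.eval₂ F.subtype x = (S %ₘ R).eval₂ F.subtype x := by
      conv_lhs => rw [← modByMonic_add_div S R]
      rw [eval₂_add, eval₂_mul, ← eval_map (f := F.subtype) (p := R), ← hf, hfx, zero_mul,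
        add_zero]
    rw [hmod]
    by_cases hS : S %ₘ R = 0
    · left
      simp [hS]
    · have hdeg : (S %ₘ R).natDegree < d := by
        rw [← hRd]
        exact natDegree_modByMonic_lt S hRm (by
          intro h1
          rw [h1, natDegree_one] at hRd
          omega)
      obtain ⟨i, hi⟩ := hmin _ hS hdeg
      obtain ⟨γ', c', hc', hL'⟩ := hi.eval (hxall i)
      exact Or.inr ⟨c', γ', hc', hL'⟩

end Seq

end LTR

end Pool.Agent.H3.FT
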